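import Pool.Agent.P8H16.XP.Stm

/-!
# Project XP, part BLK: closed alternating walks with four different vertices
-/

set_option autoImplicit false
set_option linter.all false

open Finset

namespace Pool.Agent.P8H53.XP

section

variable {n : ℕ}

/-- the end of a side -/
theorem side {u w : ZMod n} {d : ℕ} (h : w = u + d ∨ u = w + d) :
    ∃ p : ZMod n, (p = u ∧ p + d = w) ∨ (p = w ∧ p + d = u) := by
  rcases h with h | h
  · exact ⟨u, Or.inl ⟨rfl, h.symm⟩⟩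
  · exact ⟨w, Or.inr ⟨rfl, h.symm⟩⟩

theorem dis {u w u' w' p p' : ZMod n} {d d' : ℕ} (h : (p = u ∧ p + d = w) ∨ (p = w ∧ p + d = u))
    (h' : (p' = u' ∧ p' + d' = w') ∨ (p' = w' ∧ p' + d' = u')) (h1 : u ≠ u') (h2 : u ≠ w') (h3 : w ≠ u')
    (h4 : w ≠ w') : p ≠ p' ∧ p ≠ p' + d' ∧ p + d ≠ p' ∧ p + d ≠ p' + d' := by
  rcases h with ⟨a, b⟩ | ⟨a, b⟩ <;> rcases h' with ⟨a', b'⟩ | ⟨a', b'⟩ <;> rw [b, b', a, a'] <;>
    exact ⟨by assumption, by assumption, by assumption, by assumption⟩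

theorem gen (S D : Finset ℕ) (d1 d2 d3 d4 : ℕ) (h12 : d1 ≠ d2) (h13 : d1 ≠ d3) (h14 : d1 ≠ d4) (h23 : d2 ≠ d3)
    (h24 : d2 ≠ d4) (h34 : d3 ≠ d4) (s1 : d1 ∈ S) (s2 : d2 ∉ S) (s3 : d3 ∈ S) (s4 : d4 ∉ S)
    (hD : ∀ d, d ∈ D ↔ d = d1 ∨ d = d2 ∨ d = d3 ∨ d = d4)
    (v0 v1 v2 v3 : ZMod n) (g01 : v0 ≠ v1) (g02 : v0 ≠ v2) (g03 : v0 ≠ v3) (g12 : v1 ≠ v2) (g13 : v1 ≠ v3)
    (g23 : v2 ≠ v3) (e1 : v1 = v0 + d1 ∨ v0 = v1 + d1) (e2 : v2 = v1 + d2 ∨ v1 = v2 + d2)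
    (e3 : v3 = v2 + d3 ∨ v2 = v3 + d3) (e4 : v0 = v3 + d4 ∨ v3 = v0 + d4) :
    ∃ (V : Finset (ZMod n)) (y : ℕ → ZMod n), V.card ≤ 4 ∧
      (∀ d ∈ D, y d ∈ V ∧ y d + d ∈ V) ∧
      (∀ d ∈ D, ∀ d' ∈ D, d ≠ d' → (d ∈ S ↔ d' ∈ S) →
        y d ≠ y d' ∧ y d ≠ y d' + d' ∧ y d + d ≠ y d' ∧ y d + d ≠ y d' + d') ∧
      (∀ v ∈ V, (∃ d ∈ D, d ∈ S ∧ (v = y d ∨ v = y d + d)) ∧ (∃ d ∈ D, d ∉ S ∧ (v = y d ∨ v = y d + d))) := by
  classical
  obtain ⟨p1, q1⟩ := side e1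
  obtain ⟨p2, q2⟩ := side e2
  obtain ⟨p3, q3⟩ := side e3
  obtain ⟨p4, q4⟩ := side e4
  obtain ⟨y, y1, y2, y3, y4⟩ : ∃ y : ℕ → ZMod n, y d1 = p1 ∧ y d2 = p2 ∧ y d3 = p3 ∧ y d4 = p4 := by
    refine ⟨fun d => if d = d1 then p1 else if d = d2 then p2 else if d = d3 then p3 else p4, ?_, ?_, ?_, ?_⟩
    · exact if_pos rfl
    · show (if d2 = d1 then p1 else if d2 = d2 then p2 else if d2 = d3 then p3 else p4) = p2
      rw [if_neg h12.symm, if_pos rfl]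
    · show (if d3 = d1 then p1 else if d3 = d2 then p2 else if d3 = d3 then p3 else p4) = p3
      rw [if_neg h13.symm, if_neg h23.symm, if_pos rfl]
    · show (if d4 = d1 then p1 else if d4 = d2 then p2 else if d4 = d3 then p3 else p4) = p4
      rw [if_neg h14.symm, if_neg h24.symm, if_neg h34.symm]
  rw [← y1] at q1
  rw [← y2] at q2
  rw [← y3] at q3
  rw [← y4] at q4
  have m1 : d1 ∈ D := (hD d1).2 (Or.inl rfl)
  have m2 : d2 ∈ D := (hD d2).2 (Or.inr (Or.inl rfl))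
  have m3 : d3 ∈ D := (hD d3).2 (Or.inr (Or.inr (Or.inl rfl)))
  have m4 : d4 ∈ D := (hD d4).2 (Or.inr (Or.inr (Or.inr rfl)))
  have i0 : v0 ∈ ({v0, v1, v2, v3} : Finset (ZMod n)) := by simp
  have i1 : v1 ∈ ({v0, v1, v2, v3} : Finset (ZMod n)) := by simp
  have i2 : v2 ∈ ({v0, v1, v2, v3} : Finset (ZMod n)) := by simp
  have i3 : v3 ∈ ({v0, v1, v2, v3} : Finset (ZMod n)) := by simp
  have t13 := dis q1 q3 g02 g03 g12 g13
  have t31 := dis q3 q1 g02.symm g12.symm g03.symm g13.symm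
  have t24 := dis q2 q4 g13 g01.symm g23 g02.symm
  have t42 := dis q4 q2 g13.symm g23.symm g01 g02
  refine ⟨{v0, v1, v2, v3}, y, Finset.card_le_four, ?_, ?_, ?_⟩
  · intro d hd
    rcases (hD d).1 hd with rfl | rfl | rfl | rfl
    · rcases q1 with ⟨a, b⟩ | ⟨a, b⟩ <;> rw [b, a] <;> exact ⟨by assumption, by assumption⟩
    · rcases q2 with ⟨a, b⟩ | ⟨a, b⟩ <;> rw [b, a] <;> exact ⟨by assumption, by assumption⟩
    · rcases q3 with ⟨a, b⟩ | ⟨a, b⟩ <;> rw [b, a] <;> exact ⟨by assumption, by assumption⟩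
    · rcases q4 with ⟨a, b⟩ | ⟨a, b⟩ <;> rw [b, a] <;> exact ⟨by assumption, by assumption⟩
  · intro d hd d' hd' hne hS
    rcases (hD d).1 hd with rfl | rfl | rfl | rfl <;> rcases (hD d').1 hd' with rfl | rfl | rfl | rfl
    · exact absurd rfl hne
    · exact absurd (hS.1 s1) s2
    · exact t13
    · exact absurd (hS.1 s1) s4
    · exact absurd (hS.2 s1) s2
    · exact absurd rfl hne
    · exact absurd (hS.2 s3) s2
    · exact t24
    · exact t31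
    · exact absurd (hS.1 s3) s2
    · exact absurd rfl hne
    · exact absurd (hS.1 s3) s4
    · exact absurd (hS.2 s1) s4
    · exact t42
    · exact absurd (hS.2 s3) s4
    · exact absurd rfl hne
  · intro v hv
    have w1 : ∀ v, (v = v0 ∨ v = v1) → v = y d1 ∨ v = y d1 + d1 := by
      rintro v (rfl | rfl) <;> rcases q1 with ⟨a, b⟩ | ⟨a, b⟩
      · exact Or.inl a.symm
      · exact Or.inr b.symm
      · exact Or.inr b.symm
      · exact Or.inl a.symm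
    have w2 : ∀ v, (v = v1 ∨ v = v2) → v = y d2 ∨ v = y d2 + d2 := by
      rintro v (rfl | rfl) <;> rcases q2 with ⟨a, b⟩ | ⟨a, b⟩
      · exact Or.inl a.symm
      · exact Or.inr b.symm
      · exact Or.inr b.symm
      · exact Or.inl a.symm
    have w3 : ∀ v, (v = v2 ∨ v = v3) → v = y d3 ∨ v = y d3 + d3 := by
      rintro v (rfl | rfl) <;> rcases q3 with ⟨a, b⟩ | ⟨a, b⟩
      · exact Or.inl a.symm
      · exact Or.inr b.symm
      · exact Or.inr b.symm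
      · exact Or.inl a.symm
    have w4 : ∀ v, (v = v3 ∨ v = v0) → v = y d4 ∨ v = y d4 + d4 := by
      rintro v (rfl | rfl) <;> rcases q4 with ⟨a, b⟩ | ⟨a, b⟩
      · exact Or.inl a.symm
      · exact Or.inr b.symm
      · exact Or.inr b.symm
      · exact Or.inl a.symm
    simp only [Finset.mem_insert, Finset.mem_singleton] at hv
    rcases hv with hv | hv | hv | hv
    · exact ⟨⟨d1, m1, s1, w1 v (Or.inl hv)⟩, ⟨d4, m4, s4, w4 v (Or.inr hv)⟩⟩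
    · exact ⟨⟨d1, m1, s1, w1 v (Or.inr hv)⟩, ⟨d2, m2, s2, w2 v (Or.inl hv)⟩⟩
    · exact ⟨⟨d3, m3, s3, w3 v (Or.inl hv)⟩, ⟨d2, m2, s2, w2 v (Or.inr hv)⟩⟩
    · exact ⟨⟨d3, m3, s3, w3 v (Or.inr hv)⟩, ⟨d4, m4, s4, w4 v (Or.inl hv)⟩⟩

end

theorem ne_cast {k x y : ℕ} (hx : x ≤ 4 * k) (hy : y ≤ 4 * k) (h : x ≠ y) :
    (x : ZMod (4 * k + 1)) ≠ (y : ZMod (4 * k + 1)) := by
  intro h1
  rw [ZMod.natCast_eq_natCast_iff'] at h1
  rw [Nat.mod_eq_of_lt (by omega), Nat.mod_eq_of_lt (by omega)] at h1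
  exact h h1

/-- `s - t = s' - t'` -/
theorem same (k : ℕ) (S D : Finset ℕ) (s t s' t' : ℕ) (h1 : 1 ≤ s) (h2 : s ≤ 2 * k) (h3 : 1 ≤ t) (h4 : t ≤ 2 * k)
    (h5 : 1 ≤ s') (h6 : s' ≤ 2 * k) (h7 : 1 ≤ t') (h8 : t' ≤ 2 * k) (e : s + t' = s' + t) (k1 : s ≠ t) (k2 : s ≠ s')
    (k3 : s ≠ t') (k4 : t ≠ s') (k5 : t ≠ t') (k6 : s' ≠ t') (hs : s ∈ S) (ht : t ∉ S) (hs' : s' ∈ S) (ht' : t' ∉ S)
    (hD : ∀ d, d ∈ D ↔ d = s ∨ d = t' ∨ d = s' ∨ d = t) :
    ∃ (V : Finset (ZMod (4 * k + 1))) (y : ℕ → ZMod (4 * k + 1)), V.card ≤ 4 ∧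
      (∀ d ∈ D, y d ∈ V ∧ y d + d ∈ V) ∧
      (∀ d ∈ D, ∀ d' ∈ D, d ≠ d' → (d ∈ S ↔ d' ∈ S) →
        y d ≠ y d' ∧ y d ≠ y d' + d' ∧ y d + d ≠ y d' ∧ y d + d ≠ y d' + d') ∧
      (∀ v ∈ V, (∃ d ∈ D, d ∈ S ∧ (v = y d ∨ v = y d + d)) ∧ (∃ d ∈ D, d ∉ S ∧ (v = y d ∨ v = y d + d))) := by
  refine gen S D s t' s' t k3 k2 k1 k6.symm k5.symm k4.symm hs ht' hs' ht hD ((0 : ℕ) : ZMod (4 * k + 1)) (s : ℕ)
    ((s + t' : ℕ) : ZMod (4 * k + 1)) (t : ℕ) (ne_cast (by omega) (by omega) (by omega))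
    (ne_cast (by omega) (by omega) (by omega)) (ne_cast (by omega) (by omega) (by omega))
    (ne_cast (by omega) (by omega) (by omega)) (ne_cast (by omega) (by omega) (by omega))
    (ne_cast (by omega) (by omega) (by omega)) (Or.inl ?_) (Or.inl ?_) (Or.inr ?_) (Or.inr ?_)
  · push_cast
    ring
  · push_cast
    ring
  · rw [e]
    push_cast
    ring
  · push_cast
    ring

/-- `s + s' = t + t'` -/
theorem opp (k : ℕ) (S D : Finset ℕ) (s t s' t' : ℕ) (h1 : 1 ≤ s) (h2 : s ≤ 2 * k) (h3 : 1 ≤ t) (h4 : t ≤ 2 * k)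
    (h5 : 1 ≤ s') (h6 : s' ≤ 2 * k) (h7 : 1 ≤ t') (h8 : t' ≤ 2 * k) (e : s + s' = t + t') (k1 : s ≠ t) (k2 : s ≠ s')
    (k3 : s ≠ t') (k4 : t ≠ s') (k5 : t ≠ t') (k6 : s' ≠ t') (hs : s ∈ S) (ht : t ∉ S) (hs' : s' ∈ S) (ht' : t' ∉ S)
    (hD : ∀ d, d ∈ D ↔ d = s ∨ d = t' ∨ d = s' ∨ d = t) :
    ∃ (V : Finset (ZMod (4 * k + 1))) (y : ℕ → ZMod (4 * k + 1)), V.card ≤ 4 ∧
      (∀ d ∈ D, y d ∈ V ∧ y d + d ∈ V) ∧
      (∀ d ∈ D, ∀ d' ∈ D, d ≠ d' → (d ∈ S ↔ d' ∈ S) →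
        y d ≠ y d' ∧ y d ≠ y d' + d' ∧ y d + d ≠ y d' ∧ y d + d ≠ y d' + d') ∧
      (∀ v ∈ V, (∃ d ∈ D, d ∈ S ∧ (v = y d ∨ v = y d + d)) ∧ (∃ d ∈ D, d ∉ S ∧ (v = y d ∨ v = y d + d))) := by
  have c1 := ne_cast (k := k) (x := s) (y := 0) (by omega) (by omega) (by omega)
  have c2 := ne_cast (k := k) (x := t) (y := 0) (by omega) (by omega) (by omega)
  have c3 := ne_cast (k := k) (x := s') (y := 0) (by omega) (by omega) (by omega)
  have c4 := ne_cast (k := k) (x := t') (y := 0) (by omega) (by omega) (by omega)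
  have c5 := ne_cast (k := k) (x := s) (y := t') (by omega) (by omega) k3
  have c6 := ne_cast (k := k) (x := s) (y := t) (by omega) (by omega) k1
  rw [Nat.cast_zero] at c1 c2 c3 c4
  have e' : (s : ZMod (4 * k + 1)) + s' = t + t' := by exact_mod_cast congrArg (fun x : ℕ => (x : ZMod (4 * k + 1))) e
  refine gen S D s t' s' t k3 k2 k1 k6.symm k5.symm k4.symm hs ht' hs' ht hD (0 : ZMod (4 * k + 1)) (s : ℕ)
    ((s : ZMod (4 * k + 1)) - t') (t : ℕ) c1.symm ?_ c2.symm ?_ c6 ?_ (Or.inl ?_) (Or.inr ?_) (Or.inl ?_) (Or.inr ?_)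
  · intro h
    exact c5 (sub_eq_zero.1 h.symm)
  · intro h
    apply c4
    calc (t' : ZMod (4 * k + 1)) = s - (s - t') := by ring
      _ = 0 := by rw [← h]; ring
  · intro h
    apply c3
    calc (s' : ZMod (4 * k + 1)) = (s + s') - t' - (s - t') := by ring
      _ = 0 := by rw [e', h]; ring
  · ring
  · ring
  · calc (t : ZMod (4 * k + 1)) = (t + t') - t' := by ring
      _ = s - t' + s' := by rw [← e']; ring
  · ring

theorem blk : Pool.Agent.P8H16.XP.S_BLK := by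
  intro k i j S hi hj hij h
  have hD : ∀ d, d ∈ ({2 * i + 1, 2 * i + 2, 2 * j + 1, 2 * j + 2} : Finset ℕ) ↔
      d = 2 * i + 1 ∨ d = 2 * i + 2 ∨ d = 2 * j + 1 ∨ d = 2 * j + 2 := by
    intro d
    simp only [Finset.mem_insert, Finset.mem_singleton]
  rcases h with ⟨a1, a2, b1, b2⟩ | ⟨ha, hb⟩
  · -- `s = a + 1`, `t' = b`, `s' = a`, `t = b + 1`
    exact same k S _ (2 * i + 2) (2 * j + 2) (2 * i + 1) (2 * j + 1) (by omega) (by omega) (by omega) (by omega)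
      (by omega) (by omega) (by omega) (by omega) (by omega) (by omega) (by omega) (by omega) (by omega) (by omega)
      (by omega) a2 b2 a1 b1 (fun d => (hD d).trans (by tauto))
  · by_cases a1 : 2 * i + 1 ∈ S <;> by_cases b1 : 2 * j + 1 ∈ S
    · have a2 := ha.1 a1
      have b2 := hb.1 b1
      exact same k S _ (2 * i + 1) (2 * i + 2) (2 * j + 1) (2 * j + 2) (by omega) (by omega) (by omega) (by omega)
        (by omega) (by omega) (by omega) (by omega) (by omega) (by omega) (by omega) (by omega) (by omega) (by omega)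
        (by omega) a1 a2 b1 b2 (fun d => (hD d).trans (by tauto))
    · have a2 := ha.1 a1
      have b2 : 2 * j + 2 ∈ S := by
        by_contra h
        exact b1 (hb.2 h)
      exact opp k S _ (2 * i + 1) (2 * i + 2) (2 * j + 2) (2 * j + 1) (by omega) (by omega) (by omega) (by omega)
        (by omega) (by omega) (by omega) (by omega) (by omega) (by omega) (by omega) (by omega) (by omega) (by omega)
        (by omega) a1 a2 b2 b1 (fun d => (hD d).trans (by tauto))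
    · have b2 := hb.1 b1
      have a2 : 2 * i + 2 ∈ S := by
        by_contra h
        exact a1 (ha.2 h)
      exact opp k S _ (2 * i + 2) (2 * i + 1) (2 * j + 1) (2 * j + 2) (by omega) (by omega) (by omega) (by omega)
        (by omega) (by omega) (by omega) (by omega) (by omega) (by omega) (by omega) (by omega) (by omega) (by omega)
        (by omega) a2 a1 b1 b2 (fun d => (hD d).trans (by tauto))
    · have a2 : 2 * i + 2 ∈ S := by
        by_contra h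
        exact a1 (ha.2 h)
      have b2 : 2 * j + 2 ∈ S := by
        by_contra h
        exact b1 (hb.2 h)
      exact same k S _ (2 * i + 2) (2 * i + 1) (2 * j + 2) (2 * j + 1) (by omega) (by omega) (by omega) (by omega)
        (by omega) (by omega) (by omega) (by omega) (by omega) (by omega) (by omega) (by omega) (by omega) (by omega)
        (by omega) a2 a1 b2 b1 (fun d => (hD d).trans (by tauto))

end Pool.Agent.P8H53.XP
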